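import Mathlib

/-!
A finite abelian group of exponent dividing `m` has a large elementary abelian quotient.
-/

set_option autoImplicit false

open Finset Module

namespace Pool.Agent.Helper479_qa

lemma card_ker_mul_card_range {G : Type} [AddCommGroup G] [Finite G] (p : ℕ) :
    Nat.card {g : G // p • g = 0} * Nat.card (nsmulAddMonoidHom p : G →+ G).range =
      Nat.card G := by
  rw [← AddSubgroup.card_mul_index (nsmulAddMonoidHom p : G →+ G).ker,
    AddSubgroup.index_ker]
  congr 1

lemma card_le_of_ker (m : ℕ) : m ≠ 0 → ∀ (G : Type) [AddCommGroup G] [Finite G],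
    (∀ g : G, m • g = 0) → ∀ B : ℕ, 1 ≤ B →
    (∀ p : ℕ, p.Prime → p ∣ m → Nat.card {g : G // p • g = 0} ≤ B) →
    Nat.card G ≤ B ^ m := by
  induction m using Nat.strong_induction_on with
  | _ m ih =>
    intro hm G _ _ hG B hB hp
    by_cases h1 : m = 1
    · have hsub : ∀ g : G, g = 0 := by
        intro g
        have := hG g
        rwa [h1, one_smul] at this
      have : Subsingleton G := ⟨fun a b => by rw [hsub a, hsub b]⟩
      rw [Nat.card_of_subsingleton (0 : G)]
      exact Nat.one_le_pow _ _ hB
    · obtain ⟨p, hpp, m', rfl⟩ := Nat.exists_prime_and_dvd h1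
      have hm' : m' ≠ 0 := by rintro rfl; simp at hm
      have hlt : m' < p * m' := by
        have := hpp.two_le
        have : 2 * m' ≤ p * m' := Nat.mul_le_mul_right _ this
        omega
      have hH := ih m' hlt hm' (nsmulAddMonoidHom p : G →+ G).range (by
        rintro ⟨_, g, rfl⟩
        apply Subtype.ext
        have := hG g
        rw [mul_comm, mul_nsmul'] at this
        simpa using this) B hB (by
        intro q hq hqm
        refine le_trans ?_ (hp q hq (hqm.mul_left p))
        apply Nat.card_le_card_of_injective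
          (fun h : {h : (nsmulAddMonoidHom p : G →+ G).range // q • h = 0} =>
            (⟨(h.1 : G), by
              have h2 := congrArg Subtype.val h.2
              rw [AddSubgroup.coe_nsmul, AddSubgroup.coe_zero] at h2
              exact h2⟩ : {g : G // q • g = 0}))
        intro a b hab
        apply Subtype.ext
        apply Subtype.ext
        exact congrArg (fun t : {g : G // q • g = 0} => (t : G)) hab)
      rw [← card_ker_mul_card_range (G := G) p]
      calc Nat.card {g : G // p • g = 0} * Nat.card (nsmulAddMonoidHom p : G →+ G).range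
          ≤ B * B ^ m' := Nat.mul_le_mul (hp p hpp (Dvd.intro _ rfl)) hH
        _ = B ^ (m' + 1) := by rw [pow_succ, mul_comm]
        _ ≤ B ^ (p * m') := Nat.pow_le_pow_right hB (by omega)

lemma exists_equiv (p : ℕ) [Fact p.Prime] (Q : Type) [AddCommGroup Q] [Finite Q]
    (hQ : ∀ x : Q, p • x = 0) :
    ∃ (r : ℕ) (_ : Q ≃+ (Fin r → ZMod p)), Nat.card Q = p ^ r := by
  obtain ⟨inst⟩ : Nonempty (Module (ZMod p) Q) := ⟨AddCommGroup.zmodModule hQ⟩
  have hfin : Module.Finite (ZMod p) Q := inferInstance
  refine ⟨finrank (ZMod p) Q, (Module.finBasis (ZMod p) Q).equivFun.toAddEquiv, ?_⟩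
  rw [Module.natCard_eq_pow_finrank (K := ZMod p)]
  simp

lemma exists_quotient {m : ℕ} (hm : m ≠ 0) (hm1 : m ≠ 1) (G : Type) [AddCommGroup G] [Finite G]
    (hG : ∀ g : G, m • g = 0) :
    ∃ (p r : ℕ) (π : G →+ (Fin r → ZMod p)), p.Prime ∧ p ∣ m ∧ Function.Surjective π ∧
      Nat.card G ≤ (p ^ r) ^ m := by
  classical
  obtain ⟨p, hp, hmax⟩ := m.primeFactors.exists_max_image
    (fun p => Nat.card {g : G // p • g = 0}) (Nat.nonempty_primeFactors.2 (by omega))
  rw [Nat.mem_primeFactors] at hp
  have hB : 1 ≤ Nat.card {g : G // p • g = 0} := by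
    have : Nonempty {g : G // p • g = 0} := ⟨⟨0, smul_zero _⟩⟩
    exact Nat.card_pos
  have hle := card_le_of_ker m hm G hG _ hB (fun q hq hqm =>
    hmax q (Nat.mem_primeFactors.2 ⟨hq, hqm, hm⟩))
  have : Fact p.Prime := ⟨hp.1⟩
  let H : AddSubgroup G := (nsmulAddMonoidHom p : G →+ G).range
  let Q := G ⧸ H
  have hQ : ∀ x : Q, p • x = 0 := by
    intro x
    induction x using QuotientAddGroup.induction_on with
    | _ g =>
      have : p • (QuotientAddGroup.mk g : Q) = QuotientAddGroup.mk (p • g) := rfl
      rw [this, QuotientAddGroup.eq_zero_iff]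
      exact ⟨g, rfl⟩
  have hfin0 : Finite Q := inferInstanceAs (Finite (G ⧸ H))
  obtain ⟨r, e, hr⟩ := exists_equiv p Q hQ
  refine ⟨p, r, e.toAddMonoidHom.comp (QuotientAddGroup.mk' H), hp.1, hp.2.1, ?_, ?_⟩
  · intro y
    obtain ⟨x, hx⟩ := e.surjective y
    obtain ⟨g, hg⟩ := QuotientAddGroup.mk'_surjective H x
    refine ⟨g, ?_⟩
    rw [AddMonoidHom.comp_apply, hg]
    exact hx
  · have h2 : Nat.card Q = Nat.card {g : G // p • g = 0} := by
      have h3 := card_ker_mul_card_range (G := G) p
      have h4 : Nat.card H * Nat.card Q = Nat.card G := AddSubgroup.card_mul_index H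
      have h5 : 0 < Nat.card H := Nat.card_pos
      have h6 : Nat.card H * Nat.card Q = Nat.card H * Nat.card {g : G // p • g = 0} := by
        rw [h4, ← h3, mul_comm]
      exact Nat.eq_of_mul_eq_mul_left h5 h6
    rw [← hr, h2]
    exact hle

end Pool.Agent.Helper479_qa
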