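import Pool.Agent.Helper479_qa.Main

/-!
The lower bound for the number of orbits.
-/

set_option autoImplicit false

open Finset Module Matrix

namespace Pool.Agent.Helper479_qa

open Pool.Agent.Helper479_codes (kspan kspan_of exists_codeword card_forms one_ne_neg_one)

section

variable {m : ℕ} (D : Fld m) {G : Type} [AddCommGroup G] [Fintype G] [DecidableEq G]
  {p : ℕ} [hp : Fact p.Prime] {r : ℕ}

lemma exists_coset_quot (hm : Odd m) (hG : ∀ g : G, m • g = 0) (ψ : AddChar (ZMod p) D.K)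
    (S : Finset (AddChar G D.K))
    (π : (G ⧸ ann D S) →+ (Fin r → ZMod p)) {n : ℕ} (hn : Nat.card (G ⧸ ann D S) ≤ n) :
    ∃ a : AddChar G D.K, p ^ r * S.card ≤ n * (univ.filter fun b : Fin r → ZMod p =>
      a + chb D ψ (π.comp (QuotientAddGroup.mk' (ann D S))) b ∈ S).card := by
  classical
  have : Fintype (G ⧸ ann D S) := Fintype.ofFinite _
  obtain ⟨T, hT, hTS⟩ := card_pull D S
  obtain ⟨a, ha⟩ := exists_coset D ψ π T
  have hΓ : ∀ g : G ⧸ ann D S, m • g = 0 := by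
    intro x
    obtain ⟨g, rfl⟩ := QuotientAddGroup.mk'_surjective (ann D S) x
    rw [← map_nsmul, hG, map_zero]
  rw [card_char D hm hΓ, hT] at ha
  refine ⟨pull D (ann D S) a, ha.trans ?_⟩
  apply Nat.mul_le_mul
  · rw [← Nat.card_eq_fintype_card]; exact hn
  · apply card_le_card
    intro b hb
    have h1 := (mem_filter.1 hb).2
    refine mem_filter.2 ⟨mem_univ _, ?_⟩
    exact hTS _ h1

end

open Helper999.Sq3 in
lemma prime_step {m : ℕ} (D : Fld m) (hm : Odd m) {R δ : ℝ} (hR : 0 < R) (hδ : 0 < δ)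
    (p : ℕ) [hp : Fact p.Prime] (hpm : p ∣ m) :
    ∃ c : ℝ, 0 < c ∧ ∀ (G : Type) [AddCommGroup G] [Fintype G] [DecidableEq G]
      (Ω : Type) [Fintype Ω] [AddAction G Ω] (ι : Type) [Fintype ι] [DecidableEq ι],
      (∀ g : G, m • g = 0) → ∀ (rep : ι → Ω), (∀ ω, ∃ i, ∃ g : G, ω = g +ᵥ rep i) →
      ∀ (C : Submodule (ZMod 2) (Ω → ZMod 2)) (v : ι → D.K) (S : Finset (AddChar G D.K)),
      v ≠ 0 → 0 < Fintype.card Ω →
      (∀ a ∈ S, ∃ F ∈ kspan D.K C, (∀ (g : G) (ω : Ω), F (g +ᵥ ω) = a g * F ω) ∧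
        ∀ i, F (rep i) = v i) →
      R * (Fintype.card Ω : ℝ) ≤ (Fintype.card D.K : ℝ) * (Fintype.card ι *
        ((Fintype.card D.K : ℝ) ^ (Fintype.card ι) * S.card)) →
      ∀ (r : ℕ) (π : (G ⧸ ann D S) →+ (Fin r → ZMod p)), Function.Surjective π →
      Nat.card (G ⧸ ann D S) ≤ (p ^ r) ^ m →
      (∀ w ∈ C, w ≠ 0 → δ * (Fintype.card Ω : ℝ) ≤ hammingNorm w) →
      c * Real.logb 2 (Fintype.card Ω) ≤ Fintype.card ι := by
  classical
  obtain ⟨ψ, hψ⟩ := exists_psi D (p := p) hm hpm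
  have hpp : p.Prime := Fact.out
  have hp2 : p ≠ 2 := by
    rintro rfl
    exact (Nat.not_even_iff_odd.2 hm) (even_iff_two_dvd.2 hpm)
  have hp3 : 3 ≤ p := by
    have := hpp.two_le
    omega
  have hp0 : (0 : ℝ) < p := by exact_mod_cast hpp.pos
  have hpR : (3 : ℝ) ≤ p := by exact_mod_cast hp3
  -- the dimension of the grid
  obtain ⟨k, hk⟩ : ∃ k : ℕ, (((p : ℝ) - 2) / p) ^ k < δ :=
    exists_pow_lt_of_lt_one hδ (by rw [div_lt_one hp0]; linarith)
  obtain ⟨M, hM⟩ := grid_of_dense p hp2 (capP p hp2) (fun n m c A hc => supersatP p n m c A hc) k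
  set q := Fintype.card D.K with hq
  have hqpos : 0 < q := Fintype.card_pos
  obtain ⟨b, hb⟩ : ∃ b : ℕ, (q : ℝ) / R < (p : ℝ) ^ b :=
    pow_unbounded_of_one_lt _ (by linarith)
  have hlogp : 0 < Real.logb 2 p := Real.logb_pos (by norm_num) (by linarith)
  set A : ℝ := (b + (q + 1) + m * (M * (b + q + 2))) with hA
  have hA0 : 0 < A := by positivity
  refine ⟨1 / (A * Real.logb 2 p), by positivity, ?_⟩
  intro G _ _ _ Ω _ _ ι _ _ hG rep hrep C v S hv hΩ hS hcard r π hπ hΓ hdist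
  have hn : (0 : ℝ) < Fintype.card Ω := by exact_mod_cast hΩ
  obtain ⟨i0, hi0⟩ := Function.ne_iff.1 hv
  simp only [Pi.zero_apply] at hi0
  set l := Fintype.card ι with hl
  have hl0 : 0 < l := Fintype.card_pos_iff.2 ⟨i0⟩
  have hl' : (1 : ℝ) ≤ l := by exact_mod_cast hl0
  -- the quotient is not larger than `Ω`
  have hquot : Nat.card (G ⧸ ann D S) ≤ Fintype.card Ω := by
    apply card_quot_le D S (rep i0)
    intro g hg
    rw [mem_ann]
    intro a ha
    obtain ⟨F, _, h1, h2⟩ := hS a ha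
    have h3 := h1 g (rep i0)
    rw [hg, h2] at h3
    have h4 : (a g - 1) * v i0 = 0 := by rw [sub_mul, one_mul, ← h3, sub_self]
    rcases mul_eq_zero.1 h4 with h5 | h5
    · exact sub_eq_zero.1 h5
    · exact absurd h5 hi0
  obtain ⟨a, ha⟩ := exists_coset_quot D hm hG ψ S π hquot
  set π' : G →+ (Fin r → ZMod p) := π.comp (QuotientAddGroup.mk' (ann D S)) with hπ'
  have hπ'surj : Function.Surjective π' := by
    intro y
    obtain ⟨x, hx⟩ := hπ y
    obtain ⟨g, hg⟩ := QuotientAddGroup.mk'_surjective (ann D S) x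
    exact ⟨g, by rw [hπ', AddMonoidHom.comp_apply, hg, hx]⟩
  set S' : Finset (Fin r → ZMod p) :=
    univ.filter fun b : Fin r → ZMod p => a + chb D ψ π' b ∈ S with hS'
  -- the factor
  have hfac : (q : ℝ) / R * (l * (q : ℝ) ^ l) ≤ (p : ℝ) ^ (b + (q + 1) * l) := by
    have h3 : (q : ℝ) ^ l ≤ (p : ℝ) ^ (q * l) := by
      rw [pow_mul]
      apply pow_le_pow_left₀ (by positivity)
      have h4 : q < 2 ^ q := Nat.lt_two_pow_self
      have h5 : (q : ℝ) ≤ (2 : ℝ) ^ q := by exact_mod_cast h4.le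
      exact h5.trans (pow_le_pow_left₀ (by norm_num) (by linarith) _)
    have h4 : (l : ℝ) ≤ (p : ℝ) ^ l := by
      have h5 : l < 2 ^ l := Nat.lt_two_pow_self
      have h6 : (l : ℝ) ≤ (2 : ℝ) ^ l := by exact_mod_cast h5.le
      exact h6.trans (pow_le_pow_left₀ (by norm_num) (by linarith) _)
    calc (q : ℝ) / R * (l * (q : ℝ) ^ l) ≤ (p : ℝ) ^ b * ((p : ℝ) ^ l * (p : ℝ) ^ (q * l)) := by
          apply mul_le_mul hb.le _ (by positivity) (by positivity)
          exact mul_le_mul h4 h3 (by positivity) (by positivity)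
      _ = (p : ℝ) ^ (b + (q + 1) * l) := by
          rw [← pow_add, ← pow_add]; congr 1; ring
  have hΩS : (Fintype.card Ω : ℝ) ≤ (p : ℝ) ^ (b + (q + 1) * l) * S.card := by
    calc (Fintype.card Ω : ℝ) = R * Fintype.card Ω / R := by field_simp
      _ ≤ (q : ℝ) * (l * ((q : ℝ) ^ l * S.card)) / R :=
          div_le_div_of_nonneg_right hcard hR.le
      _ = (q : ℝ) / R * (l * (q : ℝ) ^ l) * S.card := by ring
      _ ≤ _ := mul_le_mul_of_nonneg_right hfac (by positivity)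
  -- density of `S'`
  have hdens : p ^ r ≤ p ^ (b + (q + 1) * l) * S'.card := by
    have h1 : (p : ℝ) ^ r * S.card ≤ Fintype.card Ω * S'.card := by exact_mod_cast ha
    have h2 : (Fintype.card Ω : ℝ) * (p : ℝ) ^ r ≤
        Fintype.card Ω * ((p : ℝ) ^ (b + (q + 1) * l) * S'.card) := by
      calc (Fintype.card Ω : ℝ) * (p : ℝ) ^ r
          ≤ ((p : ℝ) ^ (b + (q + 1) * l) * S.card) * (p : ℝ) ^ r :=
            mul_le_mul_of_nonneg_right hΩS (by positivity)
        _ = (p : ℝ) ^ (b + (q + 1) * l) * ((p : ℝ) ^ r * S.card) := by ring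
        _ ≤ (p : ℝ) ^ (b + (q + 1) * l) * (Fintype.card Ω * S'.card) :=
            mul_le_mul_of_nonneg_left h1 (by positivity)
        _ = _ := by ring
    have h3 := le_of_mul_le_mul_left h2 hn
    exact_mod_cast h3
  -- no large grid
  have hno : ¬ HasGrid p k (S' : Set (Fin r → ZMod p)) := by
    intro hg
    obtain ⟨c, hc, hc0, hwt⟩ := low_wordA D hp2 hψ π' hπ'surj rep hrep (C := C) hv a
      (S := (S' : Set (Fin r → ZMod p)))
      (fun b hb => hS (a + chb D ψ π' b) (by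
        have := mem_coe.1 hb
        rw [hS', mem_filter] at this
        exact this.2)) hg
    have h1 := hdist c hc hc0
    have h2 : (hammingNorm c : ℝ) * (p : ℝ) ^ k ≤
        ((p : ℝ) - 2) ^ k * (Fintype.card Ω : ℝ) := by
      have h3 : ((hammingNorm c * p ^ k : ℕ) : ℝ) ≤
          (((p - 2) ^ k * Fintype.card Ω : ℕ) : ℝ) := by
        exact_mod_cast hwt
      push_cast [Nat.cast_sub (by omega : 2 ≤ p)] at h3
      exact h3
    have hpk : (0 : ℝ) < (p : ℝ) ^ k := by positivity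
    rw [div_pow, div_lt_iff₀ hpk] at hk
    have h4 : δ * (Fintype.card Ω : ℝ) * (p : ℝ) ^ k ≤
        ((p : ℝ) - 2) ^ k * (Fintype.card Ω : ℝ) :=
      (mul_le_mul_of_nonneg_right h1 hpk.le).trans h2
    have h5 : (Fintype.card Ω : ℝ) * (((p : ℝ) - 2) ^ k) <
        (Fintype.card Ω : ℝ) * (δ * (p : ℝ) ^ k) :=
      mul_lt_mul_of_pos_left hk hn
    nlinarith
  have hr : r ≤ M * (b + (q + 1) * l + 1) := by
    by_contra h
    exact hno (hM (b + (q + 1) * l) r S' hdens (by omega))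
  have hr' : (r : ℝ) ≤ M * (b + (q + 1) * l + 1) := by exact_mod_cast hr
  -- the size of `Ω`
  have hSle : (S.card : ℝ) ≤ ((p : ℝ) ^ r) ^ m := by
    have : Fintype (G ⧸ ann D S) := Fintype.ofFinite _
    obtain ⟨T, hT, _⟩ := card_pull D S
    have hΓm : ∀ g : G ⧸ ann D S, m • g = 0 := by
      intro x
      obtain ⟨g, rfl⟩ := QuotientAddGroup.mk'_surjective (ann D S) x
      rw [← map_nsmul, hG, map_zero]
    have h1 : S.card ≤ Nat.card (G ⧸ ann D S) := by
      rw [← hT, Nat.card_eq_fintype_card, ← card_char D hm hΓm]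
      exact card_le_univ T
    exact_mod_cast h1.trans hΓ
  have hΩle : (Fintype.card Ω : ℝ) ≤ (p : ℝ) ^ (b + (q + 1) * l + r * m) := by
    calc (Fintype.card Ω : ℝ) ≤ (p : ℝ) ^ (b + (q + 1) * l) * S.card := hΩS
      _ ≤ (p : ℝ) ^ (b + (q + 1) * l) * ((p : ℝ) ^ r) ^ m :=
          mul_le_mul_of_nonneg_left hSle (by positivity)
      _ = _ := by rw [← pow_mul, ← pow_add]
  have hlog : Real.logb 2 (Fintype.card Ω) ≤ (b + (q + 1) * l + r * m) * Real.logb 2 p := by
    have h1 := Real.logb_le_logb_of_le (b := 2) (by norm_num) hn hΩle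
    rw [Real.logb_pow] at h1
    push_cast at h1
    exact h1
  have hM0 : (0 : ℝ) ≤ M := by positivity
  have hb0 : (0 : ℝ) ≤ b := by positivity
  have hq0 : (0 : ℝ) ≤ q := by positivity
  have hm0 : (0 : ℝ) ≤ m := by positivity
  have h6 : (M : ℝ) * (b + (q + 1) * l + 1) ≤ M * (b + q + 2) * l := by
    have : (b + (q + 1) * l + 1 : ℝ) ≤ (b + q + 2) * l := by nlinarith
    nlinarith
  have h7 : (b + (q + 1) * l + r * m : ℝ) ≤ A * l := by
    have h8 : (r : ℝ) * m ≤ M * (b + q + 2) * l * m :=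
      mul_le_mul_of_nonneg_right (hr'.trans h6) hm0
    have h9 : (b : ℝ) ≤ b * l := by nlinarith
    calc (b + (q + 1) * l + r * m : ℝ) ≤ b * l + (q + 1) * l + M * (b + q + 2) * l * m := by
          linarith
      _ = A * l := by rw [hA]; ring
  rw [one_div, inv_mul_le_iff₀ (by positivity)]
  calc Real.logb 2 (Fintype.card Ω) ≤ (b + (q + 1) * l + r * m) * Real.logb 2 p := hlog
    _ ≤ A * l * Real.logb 2 p := mul_le_mul_of_nonneg_right h7 hlogp.le
    _ = A * Real.logb 2 p * l := by ring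

/-- good codes with an abelian group of automorphisms of odd exponent have many orbits -/
theorem upper_orbits {m : ℕ} (hm : Odd m) {R δ : ℝ} (hR : 0 < R) (hδ : 0 < δ) :
    ∃ c : ℝ, 0 < c ∧ ∀ (G : Type) [AddCommGroup G] [Finite G] (Ω : Type) [Fintype Ω]
      [AddAction G Ω], (∀ g : G, m • g = 0) →
      ∀ C : Submodule (ZMod 2) (Ω → ZMod 2), InvA G C →
        R * (Fintype.card Ω : ℝ) ≤ finrank (ZMod 2) C →
        (∀ w ∈ C, w ≠ 0 → δ * (Fintype.card Ω : ℝ) ≤ hammingNorm w) →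
        c * Real.logb 2 (Fintype.card Ω) ≤ Nat.card (AddAction.orbitRel.Quotient G Ω) := by
  classical
  -- it is enough to treat exponents different from one
  wlog hm1 : m ≠ 1 generalizing m with H
  · push Not at hm1
    obtain ⟨c, hc, h⟩ := H (m := 3) (by decide) (by norm_num)
    refine ⟨c, hc, ?_⟩
    intro G _ _ Ω _ _ hG
    apply h
    intro g
    have h1 : g = 0 := by
      have := hG g
      rwa [hm1, one_smul] at this
    rw [h1, smul_zero]
  have hm0 : m ≠ 0 := by rintro rfl; simp at hm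
  obtain ⟨D⟩ := exists_fld m hm
  have hall : ∀ p : ℕ, ∃ c : ℝ, 0 < c ∧ (p.Prime → p ∣ m →
      ∀ (G : Type) [AddCommGroup G] [Fintype G] [DecidableEq G]
      (Ω : Type) [Fintype Ω] [AddAction G Ω] (ι : Type) [Fintype ι] [DecidableEq ι],
      (∀ g : G, m • g = 0) → ∀ (rep : ι → Ω), (∀ ω, ∃ i, ∃ g : G, ω = g +ᵥ rep i) →
      ∀ (C : Submodule (ZMod 2) (Ω → ZMod 2)) (v : ι → D.K) (S : Finset (AddChar G D.K)),
      v ≠ 0 → 0 < Fintype.card Ω →
      (∀ a ∈ S, ∃ F ∈ kspan D.K C, (∀ (g : G) (ω : Ω), F (g +ᵥ ω) = a g * F ω) ∧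
        ∀ i, F (rep i) = v i) →
      R * (Fintype.card Ω : ℝ) ≤ (Fintype.card D.K : ℝ) * (Fintype.card ι *
        ((Fintype.card D.K : ℝ) ^ (Fintype.card ι) * S.card)) →
      ∀ (r : ℕ) (π : (G ⧸ ann D S) →+ (Fin r → ZMod p)), Function.Surjective π →
      Nat.card (G ⧸ ann D S) ≤ (p ^ r) ^ m →
      (∀ w ∈ C, w ≠ 0 → δ * (Fintype.card Ω : ℝ) ≤ hammingNorm w) →
      c * Real.logb 2 (Fintype.card Ω) ≤ Fintype.card ι) := by
    intro p
    by_cases h : p.Prime ∧ p ∣ m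
    · have : Fact p.Prime := ⟨h.1⟩
      obtain ⟨c, hc, hc'⟩ := prime_step D hm hR hδ p h.2
      exact ⟨c, hc, fun _ _ => hc'⟩
    · exact ⟨1, one_pos, fun h1 h2 => absurd ⟨h1, h2⟩ h⟩
  choose c hc hc' using hall
  have hne : m.primeFactors.Nonempty := Nat.nonempty_primeFactors.2 (by omega)
  obtain ⟨p0, hp0, hmin⟩ := m.primeFactors.exists_min_image c hne
  refine ⟨c p0, hc p0, ?_⟩
  intro G _ _ Ω _ _ hG C hC hdim hdist
  have : Fintype G := Fintype.ofFinite G
  by_cases hΩ : 0 < Fintype.card Ω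
  swap
  · have h1 : Fintype.card Ω = 0 := by omega
    rw [h1]; simp
  have hlogn : 0 ≤ Real.logb 2 (Fintype.card Ω) :=
    Real.logb_nonneg (by norm_num) (by exact_mod_cast hΩ)
  have : Finite (AddAction.orbitRel.Quotient G Ω) := Quotient.finite _
  have : Fintype (AddAction.orbitRel.Quotient G Ω) := Fintype.ofFinite _
  let rep : AddAction.orbitRel.Quotient G Ω → Ω := Quotient.out
  have hrep : ∀ ω, ∃ i, ∃ g : G, ω = g +ᵥ rep i := by
    intro ω
    refine ⟨Quotient.mk'' ω, ?_⟩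
    have h1 : (AddAction.orbitRel G Ω).r (rep (Quotient.mk'' ω)) ω :=
      Quotient.exact (Quotient.out_eq _)
    have h2 : rep (Quotient.mk'' ω) ∈ AddAction.orbit G ω := h1
    obtain ⟨g, hg⟩ := h2
    refine ⟨-g, ?_⟩
    simp only at hg
    rw [← hg, neg_vadd_vadd]
  obtain ⟨v, S, hv, hS, hcard⟩ := dense_typeA D hm hG rep hrep hC hR hΩ hdim
  have hΓm : ∀ g : G ⧸ ann D S, m • g = 0 := by
    intro x
    obtain ⟨g, rfl⟩ := QuotientAddGroup.mk'_surjective (ann D S) x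
    rw [← map_nsmul, hG, map_zero]
  obtain ⟨p, r, π, hpp, hpm, hπ, hΓ⟩ := exists_quotient hm0 hm1 (G ⧸ ann D S) hΓm
  have h1 := hc' p hpp hpm G Ω (AddAction.orbitRel.Quotient G Ω) hG rep hrep C v S hv hΩ hS
    hcard r π hπ hΓ hdist
  rw [Nat.card_eq_fintype_card]
  exact (mul_le_mul_of_nonneg_right
    (hmin p (Nat.mem_primeFactors.2 ⟨hpp, hpm, hm0⟩)) hlogn).trans h1

end Pool.Agent.Helper479_qa
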