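import Pool.Agent.Helper479_codes.Basic

/-!
Fourier analysis on finite abelian groups of odd order with values in a finite field of
characteristic two.
-/

set_option autoImplicit false

open Finset Module

namespace Pool.Agent.Helper479_qa

/-- a finite field of characteristic two with the `m`-th roots of unity -/
structure Fld (m : ℕ) where
  K : Type
  [field : Field K]
  [fin : Fintype K]
  [dec : DecidableEq K]
  [alg : Algebra (ZMod 2) K]
  [rou : HasEnoughRootsOfUnity K m]

attribute [instance] Fld.field Fld.fin Fld.dec Fld.alg Fld.rou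

lemma exists_fld (m : ℕ) (hm : Odd m) : Nonempty (Fld m) := by
  classical
  have hm0 : m ≠ 0 := by rintro rfl; simp at hm
  have : NeZero m := ⟨hm0⟩
  have hcop : Nat.Coprime 2 m := Nat.coprime_two_left.2 hm
  obtain ⟨n, hn0, hn⟩ : ∃ n : ℕ, n ≠ 0 ∧ m ∣ 2 ^ n - 1 := by
    refine ⟨m.totient, (Nat.totient_pos.2 (Nat.pos_of_ne_zero hm0)).ne', ?_⟩
    have h := Nat.ModEq.pow_totient hcop
    exact (Nat.modEq_iff_dvd' (Nat.one_le_two_pow)).1 h.symm
  let K := GaloisField 2 n
  have : Fintype K := Fintype.ofFinite K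
  have hcard : Fintype.card K = 2 ^ n := by
    rw [← Nat.card_eq_fintype_card]; exact GaloisField.card 2 n hn0
  have hunits : Fintype.card Kˣ = 2 ^ n - 1 := by
    rw [Fintype.card_units, hcard]
  obtain ⟨g, hg⟩ := IsCyclic.exists_generator (α := Kˣ)
  have hg' : orderOf g = 2 ^ n - 1 := by
    rw [← hunits, ← Nat.card_eq_fintype_card]; exact orderOf_eq_card_of_forall_mem_zpowers hg
  obtain ⟨t, ht⟩ := hn
  have hpos : 0 < 2 ^ n - 1 := by
    have : 2 ≤ 2 ^ n := by
      calc 2 = 2 ^ 1 := by norm_num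
        _ ≤ 2 ^ n := Nat.pow_le_pow_right (by norm_num) (Nat.one_le_iff_ne_zero.2 hn0)
    omega
  have ht0 : t ≠ 0 := by
    rintro rfl
    omega
  have hord : orderOf (g ^ t) = m := by
    rw [orderOf_pow' g ht0, hg', ht, Nat.gcd_eq_right (Dvd.intro_left m rfl)]
    exact Nat.mul_div_cancel _ (Nat.pos_of_ne_zero ht0)
  have hζ : IsPrimitiveRoot ((g ^ t : Kˣ) : K) m := by
    have h := IsPrimitiveRoot.orderOf (g ^ t)
    rw [hord] at h
    exact h.map_of_injective (f := Units.coeHom K) Units.val_injective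
  have hrou : HasEnoughRootsOfUnity K m :=
    { prim := ⟨_, hζ⟩
      cyc := rootsOfUnity.isCyclic K m }
  exact ⟨{ K := K }⟩

section

variable {m : ℕ} (D : Fld m) {G : Type} [AddCommGroup G] [Fintype G] [DecidableEq G]

noncomputable instance charFintype : Fintype (AddChar G D.K) :=
  Fintype.ofInjective (fun χ => (χ : G → D.K)) DFunLike.coe_injective

lemma char_two : (2 : D.K) = 0 := by
  have h1 : algebraMap (ZMod 2) D.K (2 : ZMod 2) = (2 : D.K) := map_ofNat _ 2
  rw [← h1]
  have h2 : (2 : ZMod 2) = 0 := by decide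
  rw [h2, map_zero]

lemma add_self_eq (k : D.K) : k + k = 0 := by
  rw [← two_mul, char_two, zero_mul]

lemma odd_cast {n : ℕ} (hn : Odd n) : (n : D.K) = 1 := by
  obtain ⟨t, rfl⟩ := hn
  push_cast; rw [char_two]; ring

/-- the group has odd order -/
lemma card_odd (hm : Odd m) (hG : ∀ g : G, m • g = 0) : Odd (Fintype.card G) := by
  by_contra h
  rw [Nat.not_odd_iff_even] at h
  obtain ⟨g, hg⟩ := exists_prime_addOrderOf_dvd_card 2 h.two_dvd
  have : 2 ∣ m := by rw [← hg]; exact addOrderOf_dvd_of_nsmul_eq_zero (hG g)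
  exact (Nat.not_even_iff_odd.2 hm) (even_iff_two_dvd.2 this)

lemma exp_dvd (hG : ∀ g : G, m • g = 0) : Monoid.exponent (Multiplicative G) ∣ m := by
  apply Monoid.exponent_dvd_of_forall_pow_eq_one
  intro g
  have := hG (Multiplicative.toAdd g)
  exact this

lemma exists_char (hm : Odd m) (hG : ∀ g : G, m • g = 0) {x : G} (hx : x ≠ 0) :
    ∃ χ : AddChar G D.K, χ x ≠ 1 := by
  have hm0 : m ≠ 0 := by rintro rfl; simp at hm
  have : NeZero m := ⟨hm0⟩
  have := HasEnoughRootsOfUnity.of_dvd D.K (exp_dvd hG)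
  have hx' : Multiplicative.ofAdd x ≠ 1 := by simpa using hx
  obtain ⟨φ, hφ⟩ := CommGroup.exists_apply_ne_one_of_hasEnoughRootsOfUnity
    (Multiplicative G) D.K hx'
  refine ⟨AddChar.toMonoidHomEquiv.symm ((Units.coeHom D.K).comp φ), ?_⟩
  intro h
  apply hφ
  apply Units.ext
  exact h

lemma card_char (hm : Odd m) (hG : ∀ g : G, m • g = 0) :
    Fintype.card (AddChar G D.K) = Fintype.card G := by
  have hm0 : m ≠ 0 := by rintro rfl; simp at hm
  have : NeZero m := ⟨hm0⟩
  have := HasEnoughRootsOfUnity.of_dvd D.K (exp_dvd hG)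
  have h := CommGroup.card_monoidHom_of_hasEnoughRootsOfUnity (Multiplicative G) D.K
  rw [← Nat.card_eq_fintype_card, ← Nat.card_eq_fintype_card]
  have h2 : Nat.card (Multiplicative G) = Nat.card G := Nat.card_congr Multiplicative.toAdd
  rw [← h2, ← h]
  apply Nat.card_congr
  refine AddChar.toMonoidHomEquiv.trans ?_
  exact { toFun := fun f => f.toHomUnits
          invFun := fun φ => (Units.coeHom D.K).comp φ
          left_inv := fun f => by ext; simp
          right_inv := fun φ => by ext; simp }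

lemma sum_ch (hm : Odd m) (hG : ∀ g : G, m • g = 0) (x : G) :
    ∑ a : AddChar G D.K, a x = if x = 0 then 1 else 0 := by
  classical
  have h := AddChar.sum_eq_ite (AddChar.doubleDualEmb x : AddChar (AddChar G D.K) D.K)
  simp only [AddChar.doubleDualEmb_apply] at h
  rw [h, card_char D hm hG, odd_cast D (card_odd hm hG)]
  by_cases hx : x = 0
  · subst hx; simp
  · rw [if_neg hx, if_neg]
    intro h0
    obtain ⟨χ, hχ⟩ := exists_char D hm hG hx
    apply hχ
    have := congrArg (fun f : AddChar (AddChar G D.K) D.K => f χ) h0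
    simpa using this

lemma sum_elt (hm : Odd m) (hG : ∀ g : G, m • g = 0) (a : AddChar G D.K) :
    ∑ x : G, a x = if a = 0 then 1 else 0 := by
  classical
  rw [AddChar.sum_eq_ite, odd_cast D (card_odd hm hG)]

/-- the Fourier transform -/
def hat (F : G → D.K) (a : AddChar G D.K) : D.K := ∑ y, a (-y) * F y

lemma hat_inv (hm : Odd m) (hG : ∀ g : G, m • g = 0) (F : G → D.K) (x : G) :
    ∑ a : AddChar G D.K, a x * hat D F a = F x := by
  unfold hat
  have h1 : ∀ a : AddChar G D.K, a x * ∑ y, a (-y) * F y = ∑ y, a (x - y) * F y := by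
    intro a
    rw [mul_sum]
    apply sum_congr rfl
    intro y _
    rw [← mul_assoc, ← AddChar.map_add_eq_mul, sub_eq_add_neg]
  simp_rw [h1]
  rw [sum_comm]
  simp_rw [← sum_mul]
  simp_rw [sum_ch D hm hG]
  rw [Finset.sum_eq_single x]
  · simp
  · intro y _ hy
    rw [if_neg (sub_ne_zero.2 (Ne.symm hy)), zero_mul]
  · simp

lemma hat_eq_zero (hm : Odd m) (hG : ∀ g : G, m • g = 0) (F : G → D.K)
    (h : ∀ a, hat D F a = 0) : F = 0 := by
  funext x
  rw [← hat_inv D hm hG F x]
  simp [h]

lemma hat_translate (F : G → D.K) (a : AddChar G D.K) (x : G) :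
    ∑ y, a (-y) * F (x + y) = a x * hat D F a := by
  unfold hat
  rw [mul_sum]
  rw [← Equiv.sum_comp (Equiv.addLeft x) (fun y => a x * (a (-y) * F y))]
  apply sum_congr rfl
  intro y _
  simp only [Equiv.coe_addLeft]
  rw [← mul_assoc, ← AddChar.map_add_eq_mul]
  congr 2
  abel

lemma hat_ch (hm : Odd m) (hG : ∀ g : G, m • g = 0) (a b : AddChar G D.K) :
    hat D (fun x => b x) a = if b = a then 1 else 0 := by
  unfold hat
  have h1 : ∀ y, a (-y) * b y = (b - a) y := by
    intro y
    rw [AddChar.sub_apply, mul_comm]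
  simp_rw [h1]
  rw [sum_elt D hm hG]
  simp only [sub_eq_zero]

end

end Pool.Agent.Helper479_qa
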