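import Pool.Agent.Helper479_qa.Orbits

/-!
Good binary linear codes with an abelian group of automorphisms of bounded odd exponent: the group
has at least a constant times `log n` orbits on the coordinates.
-/

set_option autoImplicit false

open Finset Module Matrix

namespace Pool.Agent.Helper479_qa

open Pool.Agent.Helper479_codes (kspan kspan_of exists_codeword card_forms one_ne_neg_one)

variable {m : ℕ} (D : Fld m) {G : Type} [AddCommGroup G] [Fintype G] [DecidableEq G]
  {Ω : Type} [Fintype Ω] [AddAction G Ω] {ι : Type} [Fintype ι] [DecidableEq ι]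
  {p : ℕ} [hp : Fact p.Prime] {r k : ℕ}

open Helper999.Sq3 in
/-- a grid of characters gives a codeword of small weight -/
lemma low_wordA (hp2 : p ≠ 2) {ψ : AddChar (ZMod p) D.K} (hψ : ψ.IsPrimitive)
    (π : G →+ (Fin r → ZMod p)) (hπ : Function.Surjective π)
    (rep : ι → Ω) (hrep : ∀ ω, ∃ i, ∃ g : G, ω = g +ᵥ rep i)
    {C : Submodule (ZMod 2) (Ω → ZMod 2)}
    {v : ι → D.K} (hv : v ≠ 0) (a : AddChar G D.K) {S : Set (Fin r → ZMod p)}
    (hS : ∀ b ∈ S, ∃ F ∈ kspan D.K C,
      (∀ (g : G) (ω : Ω), F (g +ᵥ ω) = (a + chb D ψ π b) g * F ω) ∧ ∀ i, F (rep i) = v i)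
    (hgrid : HasGrid p k S) :
    ∃ c ∈ C, c ≠ 0 ∧ hammingNorm c * p ^ k ≤ (p - 2) ^ k * Fintype.card Ω := by
  classical
  obtain ⟨x0, d, hd, hg⟩ := hgrid
  obtain ⟨j0, hj0⟩ := Function.ne_iff.1 hv
  simp only [Pi.zero_apply] at hj0
  set κ : D.K := ψ 1 + ψ (-1) with hκ
  let w : ZMod p → D.K := fun s => if s = 0 then κ else 1
  let T : Finset (ZMod p) := {0, 1, -1}
  have h01 : (0 : ZMod p) ≠ 1 := zero_ne_one
  have h0m : (0 : ZMod p) ≠ -1 := by
    intro h; apply h01; rw [← neg_neg (1 : ZMod p), ← h, neg_zero]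
  have h1m := one_ne_neg_one (p := p) hp2
  -- the components
  have hcomp : ∀ s : Fin k → ZMod p, ∃ F : Ω → D.K,
      s ∈ Fintype.piFinset (fun _ : Fin k => T) → F ∈ kspan D.K C ∧
      (∀ (g : G) (ω : Ω), F (g +ᵥ ω) = (a + chb D ψ π (x0 + ∑ i, s i • d i)) g * F ω) ∧
      ∀ i, F (rep i) = v i := by
    intro s
    by_cases hs : s ∈ Fintype.piFinset (fun _ : Fin k => T)
    · obtain ⟨F, h1, h2, h3⟩ := hS (x0 + ∑ i, s i • d i) (hg s fun i => by
        have := Fintype.mem_piFinset.1 hs i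
        simpa [T] using this)
      exact ⟨F, fun _ => ⟨h1, h2, h3⟩⟩
    · exact ⟨0, fun h => absurd h hs⟩
  choose Fc hFc using hcomp
  let F : Ω → D.K := ∑ s ∈ Fintype.piFinset (fun _ : Fin k => T), (∏ i, w (s i)) • Fc s
  have hF : F ∈ kspan D.K C := by
    apply Submodule.sum_mem
    intro s hs
    exact Submodule.smul_mem _ _ (hFc s hs).1
  have hexp : ∀ x : Fin r → ZMod p, ∏ i, (κ + ψ (d i ⬝ᵥ x) + ψ (-(d i ⬝ᵥ x))) =
      ∑ s ∈ Fintype.piFinset (fun _ : Fin k => T), (∏ i, w (s i)) *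
        ψ ((∑ i, s i • d i) ⬝ᵥ x) := by
    intro x
    have h1 : ∀ i, κ + ψ (d i ⬝ᵥ x) + ψ (-(d i ⬝ᵥ x)) =
        ∑ s ∈ T, w s * ψ (s * (d i ⬝ᵥ x)) := by
      intro i
      rw [sum_insert (by simp [h01, h0m]), sum_insert (by simpa using h1m), sum_singleton]
      simp only [w, if_true, zero_mul, AddChar.map_zero_eq_one, mul_one, if_neg h01.symm,
        if_neg h0m.symm, one_mul, neg_mul]
      rw [add_assoc]
    simp_rw [h1]
    rw [Finset.prod_univ_sum]
    apply sum_congr rfl
    intro s _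
    rw [prod_mul_distrib]
    congr 1
    rw [sum_dotProduct, map_sum_prod D ψ]
    apply prod_congr rfl
    intro i _
    rw [smul_dotProduct, smul_eq_mul]
  -- the values
  have hval : ∀ (g : G) (i : ι), F (g +ᵥ rep i) = v i * (a g * (ψ (x0 ⬝ᵥ π g) *
      ∏ j, (κ + ψ (d j ⬝ᵥ π g) + ψ (-(d j ⬝ᵥ π g))))) := by
    intro g i
    simp only [F, Finset.sum_apply, Pi.smul_apply, smul_eq_mul]
    rw [hexp, mul_sum, mul_sum, mul_sum]
    apply sum_congr rfl
    intro s hs
    rw [(hFc s hs).2.1, (hFc s hs).2.2, AddChar.add_apply, chb_apply, add_dotProduct,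
      AddChar.map_add_eq_mul]
    ring
  have hF0 : F (rep j0) ≠ 0 := by
    have h1 := hval 0 j0
    rw [zero_vadd] at h1
    rw [h1]
    simp only [map_zero, dotProduct_zero, neg_zero, AddChar.map_zero_eq_one, one_mul]
    apply mul_ne_zero hj0
    rw [prod_const]
    apply pow_ne_zero
    rw [add_assoc, add_self_eq D 1, add_zero]
    exact kappa_ne D hp2 hψ
  obtain ⟨c, hc, hc0, hsupp⟩ := exists_codeword C hF hF0
  refine ⟨c, hc, fun h => hc0 (by rw [h]; rfl), ?_⟩
  -- the support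
  let S' : Finset (Fin k → ZMod p) := Fintype.piFinset fun _ => univ \ {1, -1}
  have hS' : S'.card = (p - 2) ^ k := by
    simp only [S', Fintype.card_piFinset, prod_const, card_univ, Fintype.card_fin]
    congr 1
    rw [card_sdiff_of_subset (subset_univ _), card_univ, ZMod.card, card_pair h1m]
  let Y : Finset (Fin r → ZMod p) := univ.filter fun x => (fun i => d i ⬝ᵥ x) ∈ S'
  have hY : ∀ (g : G) (i : ι), F (g +ᵥ rep i) ≠ 0 → π g ∈ Y := by
    intro g i h1
    simp only [Y, mem_univ, mem_filter, true_and, S', Fintype.mem_piFinset,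
      mem_sdiff, mem_insert, mem_singleton]
    intro j hcon
    apply h1
    rw [hval]
    have h2 : ∏ j, (κ + ψ (d j ⬝ᵥ π g) + ψ (-(d j ⬝ᵥ π g))) = 0 := by
      apply prod_eq_zero (mem_univ j)
      rcases hcon with h | h
      · rw [h, add_assoc, ← hκ, add_self_eq]
      · rw [h, neg_neg, add_assoc, add_comm (ψ (-1)), ← hκ, add_self_eq]
    rw [h2, mul_zero, mul_zero, mul_zero]
  -- double counting
  have hfib : ∀ ω : Ω, (univ.filter fun g : G => F (g +ᵥ ω) ≠ 0).card ≤
      (univ.filter fun g : G => π g ∈ Y).card := by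
    intro ω
    obtain ⟨i, g0, rfl⟩ := hrep ω
    apply card_le_card_of_injOn (fun g => g + g0)
    · intro g hg
      have h1 := (mem_filter.1 (mem_coe.1 hg)).2
      rw [vadd_vadd] at h1
      exact mem_coe.2 (mem_filter.2 ⟨mem_univ _, hY _ i h1⟩)
    · intro g _ g' _ h
      exact add_right_cancel h
  have hdouble : (univ.filter fun ω => F ω ≠ 0).card * Fintype.card G =
      ∑ ω : Ω, (univ.filter fun g : G => F (g +ᵥ ω) ≠ 0).card := by
    simp_rw [card_filter]
    rw [sum_comm]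
    have h1 : ∀ g : G, ∑ ω : Ω, (if F (g +ᵥ ω) ≠ 0 then 1 else 0) =
        ∑ ω : Ω, (if F ω ≠ 0 then 1 else 0) := fun g =>
      Fintype.sum_equiv (AddAction.toPerm g) _ _ (fun ω => rfl)
    rw [sum_congr rfl fun g _ => h1 g, sum_const, card_univ, smul_eq_mul, mul_comm]
  have hpos : 0 < Fintype.card G := Fintype.card_pos
  have hprpos : 0 < p ^ r := pow_pos (Fact.out : p.Prime).pos r
  have h4 : (univ.filter fun ω => F ω ≠ 0).card * p ^ k ≤ (p - 2) ^ k * Fintype.card Ω := by
    have h5 := card_preimage π hπ Y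
    have h6 : Y.card * p ^ k = (p - 2) ^ k * p ^ r := by
      rw [← hS']; exact card_forms hd S'
    have h7 : (univ.filter fun ω => F ω ≠ 0).card * Fintype.card G ≤
        Fintype.card Ω * (univ.filter fun g : G => π g ∈ Y).card := by
      rw [hdouble]
      calc ∑ ω : Ω, (univ.filter fun g : G => F (g +ᵥ ω) ≠ 0).card
          ≤ ∑ ω : Ω, (univ.filter fun g : G => π g ∈ Y).card := sum_le_sum fun ω _ => hfib ω
        _ = _ := by rw [sum_const, card_univ, smul_eq_mul]
    have h8 : 0 < Fintype.card G * p ^ r := Nat.mul_pos hpos hprpos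
    apply Nat.le_of_mul_le_mul_right _ h8
    calc (univ.filter fun ω => F ω ≠ 0).card * p ^ k * (Fintype.card G * p ^ r)
        = ((univ.filter fun ω => F ω ≠ 0).card * Fintype.card G) * (p ^ k * p ^ r) := by ring
      _ ≤ (Fintype.card Ω * (univ.filter fun g : G => π g ∈ Y).card) * (p ^ k * p ^ r) :=
          Nat.mul_le_mul_right _ h7
      _ = Fintype.card Ω * ((univ.filter fun g : G => π g ∈ Y).card * p ^ r) * p ^ k := by ring
      _ = Fintype.card Ω * Fintype.card G * (Y.card * p ^ k) := by rw [h5]; ring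
      _ = (p - 2) ^ k * Fintype.card Ω * (Fintype.card G * p ^ r) := by rw [h6]; ring
  refine le_trans (Nat.mul_le_mul_right _ ?_) h4
  apply card_le_card
  intro ω hω
  exact mem_filter.2 ⟨mem_univ _, hsupp ω (mem_filter.1 hω).2⟩

end Pool.Agent.Helper479_qa
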