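import Pool.Agent.Helper479_qa.Quot
import Pool.Agent.Helper479_qa.Rank
import Pool.Agent.Helper479_codes.Upper

/-!
Binary linear codes invariant under an abelian group of bounded odd exponent with few orbits on
the coordinates: the action need not be free.
-/

set_option autoImplicit false

open Finset Module Matrix

namespace Pool.Agent.Helper479_qa

open Pool.Agent.Helper479_codes (kspan kspan_of exists_codeword card_forms one_ne_neg_one)

section

variable {m : ℕ} (D : Fld m) {G : Type} [AddCommGroup G] [Fintype G] [DecidableEq G]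
  {Ω : Type} [Fintype Ω] [AddAction G Ω]

/-- invariance of a code under the action -/
def InvA (G : Type) [AddCommGroup G] {Ω : Type} [AddAction G Ω]
    (C : Submodule (ZMod 2) (Ω → ZMod 2)) : Prop :=
  ∀ c ∈ C, ∀ g : G, (fun ω => c (g +ᵥ ω)) ∈ C

/-- projection to the isotypic component of the character `a` -/
def proj (c : Ω → ZMod 2) (a : AddChar G D.K) : Ω → D.K :=
  fun ω => ∑ g : G, a (-g) * algebraMap (ZMod 2) D.K (c (g +ᵥ ω))

lemma proj_vadd (c : Ω → ZMod 2) (a : AddChar G D.K) (h : G) (ω : Ω) :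
    proj D c a (h +ᵥ ω) = a h * proj D c a ω := by
  unfold proj
  rw [mul_sum]
  rw [← Equiv.sum_comp (Equiv.addRight h) (fun g => a h * (a (-g) *
    algebraMap (ZMod 2) D.K (c (g +ᵥ ω))))]
  apply sum_congr rfl
  intro g _
  simp only [Equiv.coe_addRight]
  rw [← mul_assoc, ← AddChar.map_add_eq_mul, vadd_vadd]
  congr 2
  abel

lemma sum_proj (hm : Odd m) (hG : ∀ g : G, m • g = 0) (c : Ω → ZMod 2) (ω : Ω) :
    ∑ a : AddChar G D.K, proj D c a ω = algebraMap (ZMod 2) D.K (c ω) := by
  unfold proj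
  rw [sum_comm]
  simp_rw [← sum_mul]
  simp_rw [sum_ch D hm hG]
  rw [Finset.sum_eq_single 0]
  · simp
  · intro g _ hg
    rw [if_neg (by simpa using hg), zero_mul]
  · simp

lemma proj_mem {C : Submodule (ZMod 2) (Ω → ZMod 2)} (hC : InvA G C)
    {c : Ω → ZMod 2} (hc : c ∈ C) (a : AddChar G D.K) : proj D c a ∈ kspan D.K C := by
  have h : proj D c a = ∑ g : G, a (-g) • (fun ω : Ω =>
      algebraMap (ZMod 2) D.K ((fun ω => c (g +ᵥ ω)) ω)) := by
    funext ω
    rw [Finset.sum_apply]
    rfl
  rw [h]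
  apply Submodule.sum_mem
  intro g _
  exact Submodule.smul_mem _ _ (kspan_of C (hC c hc g))

variable {ι : Type} [Fintype ι] [DecidableEq ι]

/-- the active characters of a code -/
noncomputable def act (rep : ι → Ω) (C : Submodule (ZMod 2) (Ω → ZMod 2)) :
    Finset (AddChar G D.K) := by
  classical
  exact univ.filter fun a => ∃ c ∈ C, (fun i => proj D c a (rep i)) ≠ 0

lemma mem_act (rep : ι → Ω) (C : Submodule (ZMod 2) (Ω → ZMod 2)) (a : AddChar G D.K) :
    a ∈ act D rep C ↔ ∃ c ∈ C, (fun i => proj D c a (rep i)) ≠ 0 := by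
  classical
  simp [act]

lemma finrank_le_act (hm : Odd m) (hG : ∀ g : G, m • g = 0) (rep : ι → Ω)
    (hrep : ∀ ω, ∃ i, ∃ g : G, ω = g +ᵥ rep i)
    (C : Submodule (ZMod 2) (Ω → ZMod 2)) :
    finrank (ZMod 2) C ≤ Fintype.card D.K * (Fintype.card ι * (act (G := G) D rep C).card) := by
  classical
  let f : C → (act (G := G) D rep C → ι → D.K) := fun c a i => proj D c.1 a.1 (rep i)
  have hf : Function.Injective f := by
    intro c c' h
    apply Subtype.ext
    rw [← sub_eq_zero]
    have hsub : ∀ (a : AddChar G D.K) (ω : Ω), proj D (c.1 - c'.1) a ω =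
        proj D c.1 a ω - proj D c'.1 a ω := by
      intro a ω
      simp only [proj, Pi.sub_apply, map_sub, mul_sub, sum_sub_distrib]
    have hz : ∀ (a : AddChar G D.K) (i : ι), proj D (c.1 - c'.1) a (rep i) = 0 := by
      intro a i
      by_cases ha : a ∈ act D rep C
      · rw [hsub, sub_eq_zero]
        exact congrFun (congrFun h ⟨a, ha⟩) i
      · by_contra hne
        exact ha ((mem_act D rep C a).2 ⟨c.1 - c'.1, C.sub_mem c.2 c'.2,
          fun h0 => hne (congrFun h0 i)⟩)
    funext ω
    obtain ⟨i, g, rfl⟩ := hrep ω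
    have h1 := sum_proj D hm hG (c.1 - c'.1) (g +ᵥ rep i)
    rw [sum_eq_zero fun a _ => by rw [proj_vadd, hz, mul_zero]] at h1
    have hinj := (algebraMap (ZMod 2) D.K).injective
    apply hinj
    rw [← h1, Pi.zero_apply, map_zero]
  have h1 := Fintype.card_le_of_injective f hf
  have h2 : Fintype.card C = 2 ^ finrank (ZMod 2) C := by
    have := Module.card_eq_pow_finrank (K := ZMod 2) (V := C)
    rw [this, ZMod.card]
  have h3 : Fintype.card (act (G := G) D rep C → ι → D.K) =
      Fintype.card D.K ^ (Fintype.card ι * (act (G := G) D rep C).card) := by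
    rw [Fintype.card_fun, Fintype.card_fun, Fintype.card_coe, pow_mul]
  rw [h2, h3] at h1
  have h4 : Fintype.card D.K ^ (Fintype.card ι * (act (G := G) D rep C).card) ≤
      2 ^ (Fintype.card D.K * (Fintype.card ι * (act (G := G) D rep C).card)) := by
    rw [pow_mul 2]
    exact Nat.pow_le_pow_left (Nat.lt_two_pow_self).le _
  exact (Nat.pow_le_pow_iff_right (by norm_num)).1 (h1.trans h4)

/-- a large set of characters whose components have the same values on the representatives -/
lemma dense_typeA (hm : Odd m) (hG : ∀ g : G, m • g = 0) (rep : ι → Ω)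
    (hrep : ∀ ω, ∃ i, ∃ g : G, ω = g +ᵥ rep i)
    {C : Submodule (ZMod 2) (Ω → ZMod 2)} (hC : InvA G C) {R : ℝ} (hR : 0 < R)
    (hΩ : 0 < Fintype.card Ω)
    (hdim : R * (Fintype.card Ω : ℝ) ≤ finrank (ZMod 2) C) :
    ∃ (v : ι → D.K) (S : Finset (AddChar G D.K)), v ≠ 0 ∧
      (∀ a ∈ S, ∃ F ∈ kspan D.K C, (∀ (g : G) (ω : Ω), F (g +ᵥ ω) = a g * F ω) ∧
        ∀ i, F (rep i) = v i) ∧
      R * (Fintype.card Ω : ℝ) ≤ (Fintype.card D.K : ℝ) * (Fintype.card ι *
        ((Fintype.card D.K : ℝ) ^ (Fintype.card ι) * S.card)) := by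
  classical
  have hN : (0 : ℝ) < Fintype.card Ω := by exact_mod_cast hΩ
  have hq : (0 : ℝ) < Fintype.card D.K := by exact_mod_cast Fintype.card_pos
  have h1 : R * (Fintype.card Ω : ℝ) ≤
      Fintype.card D.K * (Fintype.card ι * (act (G := G) D rep C).card) := by
    have h2 : (finrank (ZMod 2) C : ℝ) ≤
        Fintype.card D.K * (Fintype.card ι * (act (G := G) D rep C).card) := by
      exact_mod_cast finrank_le_act (G := G) D hm hG rep hrep C
    exact hdim.trans h2
  have hch : ∀ a : AddChar G D.K, ∃ v : ι → D.K, (a ∈ act D rep C → v ≠ 0) ∧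
      ∃ F ∈ kspan D.K C, (∀ (g : G) (ω : Ω), F (g +ᵥ ω) = a g * F ω) ∧
        ∀ i, F (rep i) = v i := by
    intro a
    by_cases ha : a ∈ act D rep C
    · obtain ⟨c, hc, hne⟩ := (mem_act D rep C a).1 ha
      exact ⟨fun i => proj D c a (rep i), fun _ => hne, proj D c a, proj_mem D hC hc a,
        fun g ω => proj_vadd D c a g ω, fun i => rfl⟩
    · refine ⟨0, fun h => absurd h ha, 0, Submodule.zero_mem _, ?_, ?_⟩
      · intro g ω; simp
      · intro i; simp
  choose v hv1 hv2 using hch
  have hpig := Finset.exists_le_card_fiber_of_nsmul_le_card_of_maps_to (s := act (G := G) D rep C)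
    (t := (univ : Finset (ι → D.K))) (f := v)
    (b := ((act (G := G) D rep C).card : ℝ) / (Fintype.card D.K : ℝ) ^ (Fintype.card ι))
    (fun _ _ => mem_univ _) ⟨0, mem_univ _⟩ (by
      rw [card_univ, Fintype.card_fun, nsmul_eq_mul]
      push_cast
      rw [mul_div_cancel₀ _ (pow_pos hq _).ne'])
  obtain ⟨v0, _, hv0⟩ := hpig
  set S := (act (G := G) D rep C).filter fun a => v a = v0 with hS
  rw [div_le_iff₀ (pow_pos hq _)] at hv0
  have hmain : R * (Fintype.card Ω : ℝ) ≤ (Fintype.card D.K : ℝ) * (Fintype.card ι *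
        ((Fintype.card D.K : ℝ) ^ (Fintype.card ι) * S.card)) := by
    calc R * (Fintype.card Ω : ℝ)
        ≤ Fintype.card D.K * (Fintype.card ι * (act (G := G) D rep C).card) := h1
      _ ≤ Fintype.card D.K * (Fintype.card ι *
          (S.card * (Fintype.card D.K : ℝ) ^ (Fintype.card ι))) := by
        apply mul_le_mul_of_nonneg_left _ hq.le
        exact mul_le_mul_of_nonneg_left hv0 (by positivity)
      _ = _ := by ring
  refine ⟨v0, S, ?_, ?_, hmain⟩
  · have hpos : 0 < S.card := by
      by_contra h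
      have : S.card = 0 := by omega
      rw [this] at hmain
      have : 0 < R * (Fintype.card Ω : ℝ) := by positivity
      simp only [Nat.cast_zero, mul_zero] at hmain
      linarith
    obtain ⟨a, ha⟩ := card_pos.1 hpos
    rw [hS, mem_filter] at ha
    rw [← ha.2]
    exact hv1 a ha.1
  · intro a ha
    rw [hS, mem_filter] at ha
    rw [← ha.2]
    exact hv2 a

end

/-! ### The quotient by the common kernel -/

section ker

variable {m : ℕ} (D : Fld m) {G : Type} [AddCommGroup G] [Fintype G] [DecidableEq G]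
  {Ω : Type} [Fintype Ω] [AddAction G Ω]

/-- the common kernel of a set of characters -/
def ann (S : Finset (AddChar G D.K)) : AddSubgroup G where
  carrier := {h | ∀ a ∈ S, a h = 1}
  add_mem' := by
    intro x y hx hy a ha
    rw [AddChar.map_add_eq_mul, hx a ha, hy a ha, one_mul]
  zero_mem' := by
    intro a _
    exact AddChar.map_zero_eq_one a
  neg_mem' := by
    intro x hx a ha
    rw [AddChar.map_neg_eq_inv, hx a ha, inv_one]

lemma mem_ann (S : Finset (AddChar G D.K)) (h : G) : h ∈ ann D S ↔ ∀ a ∈ S, a h = 1 := Iff.rfl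

/-- the pullback of a character of the quotient -/
def pull (H : AddSubgroup G) (b : AddChar (G ⧸ H) D.K) : AddChar G D.K :=
  b.compAddMonoidHom (QuotientAddGroup.mk' H)

lemma pull_apply (H : AddSubgroup G) (b : AddChar (G ⧸ H) D.K) (g : G) :
    pull D H b g = b (QuotientAddGroup.mk' H g) := rfl

lemma pull_injective (H : AddSubgroup G) : Function.Injective (pull D H) := by
  intro b b' h
  ext x
  obtain ⟨g, rfl⟩ := QuotientAddGroup.mk'_surjective H x
  have := congrArg (fun f : AddChar G D.K => f g) h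
  exact this

lemma exists_pull (S : Finset (AddChar G D.K)) {a : AddChar G D.K} (ha : a ∈ S) :
    ∃ b : AddChar (G ⧸ ann D S) D.K, pull D (ann D S) b = a := by
  refine ⟨AddChar.toAddMonoidHomEquiv.symm
    (QuotientAddGroup.lift (ann D S) a.toAddMonoidHom ?_), ?_⟩
  · intro h hh
    rw [AddMonoidHom.mem_ker]
    have := (mem_ann D S h).1 hh a ha
    rw [AddChar.toAddMonoidHom_apply, this]
    rfl
  · ext g
    rfl

lemma card_pull (S : Finset (AddChar G D.K)) [Fintype (G ⧸ ann D S)]
    [DecidableEq (G ⧸ ann D S)] :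
    ∃ T : Finset (AddChar (G ⧸ ann D S) D.K), T.card = S.card ∧
      ∀ b ∈ T, pull D (ann D S) b ∈ S := by
  classical
  refine ⟨univ.filter fun b => pull D (ann D S) b ∈ S, ?_, fun b hb => (mem_filter.1 hb).2⟩
  apply card_bij (fun b _ => pull D (ann D S) b)
  · intro b hb
    exact (mem_filter.1 hb).2
  · intro b _ b' _ h
    exact pull_injective D _ h
  · intro a ha
    obtain ⟨b, hb⟩ := exists_pull D S ha
    exact ⟨b, mem_filter.2 ⟨mem_univ _, by rw [hb]; exact ha⟩, hb⟩

/-- the quotient is not larger than an orbit -/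
lemma card_quot_le (S : Finset (AddChar G D.K)) (ω0 : Ω)
    (h0 : ∀ g : G, g +ᵥ ω0 = ω0 → g ∈ ann D S) :
    Nat.card (G ⧸ ann D S) ≤ Fintype.card Ω := by
  rw [← Nat.card_eq_fintype_card]
  apply Nat.card_le_card_of_injective (fun x : G ⧸ ann D S => Quotient.out x +ᵥ ω0)
  intro x y hxy
  simp only at hxy
  have h1 : (-(Quotient.out y) + Quotient.out x) +ᵥ ω0 = ω0 := by
    rw [add_vadd, hxy, neg_vadd_vadd]
  have h2 := h0 _ h1
  have h3 : (QuotientAddGroup.mk (Quotient.out y) : G ⧸ ann D S) =
      QuotientAddGroup.mk (Quotient.out x) := QuotientAddGroup.eq.2 h2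
  have h4 : (QuotientAddGroup.mk (Quotient.out x) : G ⧸ ann D S) = x := Quotient.out_eq x
  have h5 : (QuotientAddGroup.mk (Quotient.out y) : G ⧸ ann D S) = y := Quotient.out_eq y
  rw [← h4, ← h5, h3]

end ker

end Pool.Agent.Helper479_qa
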