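import Pool.Agent.Helper479_qa.Fourier

/-!
Characters of a finite abelian group that factor through an elementary abelian quotient.
-/

set_option autoImplicit false

open Finset Module Matrix

namespace Pool.Agent.Helper479_qa

variable {m : ℕ} (D : Fld m) {G : Type} [AddCommGroup G] [Fintype G] [DecidableEq G]

/-! ### Characters that factor through an elementary abelian quotient -/

section quot

variable {p : ℕ} [hp : Fact p.Prime] {r k : ℕ}

lemma exists_psi (hm : Odd m) (hpm : p ∣ m) :
    ∃ ψ : AddChar (ZMod p) D.K, ψ.IsPrimitive := by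
  have hm0 : m ≠ 0 := by rintro rfl; simp at hm
  have : NeZero m := ⟨hm0⟩
  have := HasEnoughRootsOfUnity.of_dvd D.K hpm
  obtain ⟨ζ, hζ⟩ := HasEnoughRootsOfUnity.exists_primitiveRoot D.K p
  have : NeZero p := ⟨(Fact.out : p.Prime).ne_zero⟩
  exact ⟨AddChar.zmodChar p hζ.pow_eq_one, AddChar.zmodChar_primitive_of_primitive_root p hζ⟩

/-- the character of `G` given by a vector `b` -/
def chb (ψ : AddChar (ZMod p) D.K) (π : G →+ (Fin r → ZMod p)) (b : Fin r → ZMod p) :
    AddChar G D.K where
  toFun := fun x => ψ (b ⬝ᵥ π x)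
  map_zero_eq_one' := by rw [map_zero, dotProduct_zero, AddChar.map_zero_eq_one]
  map_add_eq_mul' := by
    intro x y
    rw [map_add, dotProduct_add, AddChar.map_add_eq_mul]

lemma chb_apply (ψ : AddChar (ZMod p) D.K) (π : G →+ (Fin r → ZMod p)) (b : Fin r → ZMod p)
    (x : G) : chb D ψ π b x = ψ (b ⬝ᵥ π x) := rfl

/-- averaging over the cosets -/
lemma exists_coset (ψ : AddChar (ZMod p) D.K) (π : G →+ (Fin r → ZMod p))
    (S : Finset (AddChar G D.K)) :
    ∃ a : AddChar G D.K, p ^ r * S.card ≤ Fintype.card (AddChar G D.K) *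
      (univ.filter fun b : Fin r → ZMod p => a + chb D ψ π b ∈ S).card := by
  classical
  by_contra hcon
  push Not at hcon
  have h1 : ∑ a : AddChar G D.K,
      (univ.filter fun b : Fin r → ZMod p => a + chb D ψ π b ∈ S).card = p ^ r * S.card := by
    simp_rw [card_filter]
    rw [sum_comm]
    have h2 : ∀ b : Fin r → ZMod p,
        ∑ a : AddChar G D.K, (if a + chb D ψ π b ∈ S then 1 else 0) = S.card := by
      intro b
      have h3 : ∑ a : AddChar G D.K, (if a + chb D ψ π b ∈ S then 1 else 0) =
          ∑ a : AddChar G D.K, (if a ∈ S then 1 else 0) :=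
        Fintype.sum_equiv (Equiv.addRight (chb D ψ π b)) _ _ (fun a => rfl)
      rw [h3]
      simp
    rw [sum_congr rfl fun b _ => h2 b, sum_const, card_univ, smul_eq_mul]
    simp [ZMod.card]
  have h2 : ∑ a : AddChar G D.K, Fintype.card (AddChar G D.K) *
      (univ.filter fun b : Fin r → ZMod p => a + chb D ψ π b ∈ S).card <
      ∑ a : AddChar G D.K, p ^ r * S.card :=
    sum_lt_sum_of_nonempty ⟨0, mem_univ _⟩ fun a _ => hcon a
  rw [← mul_sum, h1, sum_const, card_univ, smul_eq_mul] at h2
  exact lt_irrefl _ h2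

lemma card_preimage (π : G →+ (Fin r → ZMod p)) (hπ : Function.Surjective π)
    (Y : Finset (Fin r → ZMod p)) :
    (univ.filter fun x : G => π x ∈ Y).card * p ^ r = Y.card * Fintype.card G := by
  classical
  let f0 := (univ.filter fun x : G => π x = 0).card
  have hfib : ∀ t : Fin r → ZMod p, (univ.filter fun x : G => π x = t).card = f0 := by
    intro t
    obtain ⟨x0, hx0⟩ := hπ t
    apply card_bij' (fun x _ => x - x0) (fun x _ => x + x0)
    · intro x hx
      simp only [mem_filter, mem_univ, true_and] at hx ⊢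
      rw [map_sub, hx, hx0, sub_self]
    · intro x hx
      simp only [mem_filter, mem_univ, true_and] at hx ⊢
      rw [map_add, hx, hx0, zero_add]
    · intro x _; simp
    · intro x _; simp
  have h1 : ∀ Y : Finset (Fin r → ZMod p),
      (univ.filter fun x : G => π x ∈ Y).card = Y.card * f0 := by
    intro Y
    have hmaps : Set.MapsTo π
        (univ.filter fun x : G => π x ∈ Y : Finset _) (Y : Set (Fin r → ZMod p)) :=
      fun x hx => mem_coe.2 (mem_filter.1 (mem_coe.1 hx)).2
    have h0 := card_eq_sum_card_fiberwise hmaps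
    rw [h0]
    rw [sum_congr rfl (g := fun _ => f0)]
    · simp
    · intro t ht
      rw [← hfib t]
      congr 1
      ext x
      simp only [mem_filter, mem_univ, true_and]
      constructor
      · exact fun h => h.2
      · exact fun h => ⟨by rw [h]; exact ht, h⟩
  have h2 := h1 univ
  simp only [mem_univ, filter_true, card_univ, Fintype.card_fun, ZMod.card, Fintype.card_fin] at h2
  rw [h1 Y, h2]
  ring

lemma psi_eq_one {ψ : AddChar (ZMod p) D.K} (hψ : ψ.IsPrimitive) {t : ZMod p}
    (h : ψ t = 1) : t = 0 := by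
  by_contra ht
  apply hψ ht
  ext x
  rw [AddChar.mulShift_apply, AddChar.one_apply]
  have : t * x = x.val • t := by
    rw [nsmul_eq_mul, ZMod.natCast_zmod_val, mul_comm]
  rw [this, AddChar.map_nsmul_eq_pow, h, one_pow]

lemma kappa_ne (hp2 : p ≠ 2) {ψ : AddChar (ZMod p) D.K} (hψ : ψ.IsPrimitive) :
    ψ 1 + ψ (-1) ≠ 0 := by
  intro h
  have h1 : ψ 1 = ψ (-1) := by
    have := add_self_eq D (ψ (-1))
    exact add_right_cancel (h.trans this.symm)
  have h2 : ψ (1 + 1) = 1 := by
    rw [AddChar.map_add_eq_mul]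
    nth_rewrite 2 [h1]
    rw [← AddChar.map_add_eq_mul, add_neg_cancel, AddChar.map_zero_eq_one]
  have h3 := psi_eq_one D hψ h2
  have h4 : ((2 : ℕ) : ZMod p) = 0 := by
    push_cast; rw [← h3]; norm_num
  rw [ZMod.natCast_eq_zero_iff] at h4
  have hpp : p.Prime := Fact.out
  exact hp2 ((Nat.prime_dvd_prime_iff_eq hpp Nat.prime_two).1 h4)

lemma map_sum_prod {ι : Type} (φ : AddChar (ZMod p) D.K) (s : Finset ι) (f : ι → ZMod p) :
    φ (∑ i ∈ s, f i) = ∏ i ∈ s, φ (f i) := by
  classical
  induction s using Finset.induction_on with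
  | empty => simp
  | insert a s ha ih => rw [sum_insert ha, prod_insert ha, AddChar.map_add_eq_mul, ih]

end quot

end Pool.Agent.Helper479_qa
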